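import Pool.Agent.T2H17.SI.Final

/-!
# MP_028aa5_nt: local higher order uniformity for typical twists, for all lengths `H → ∞`

For every degree `d`, `ε > 0`, `A > 0` there are `C` and `M₀` such that for every sequence of coefficients of
absolute value at most one (for example the Liouville function), every interval `[T₀, T₀ + T]` with `T ≥ X ^ C`
and all `M ≥ M₀`: for all `t` in the interval outside a set of measure at most `T M ^ (-A)`, for ALL
`H` with `M ≤ H ≤ X` and all real polynomials `P_x` of degree at most `d` (which may depend on `x`, `t`, `H`)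

`∑_{X ≤ x < 2X} |∑_{x < n ≤ x + H} a(n) n^{it} e(P_x(n))| ≤ X H ^ (1/2 + ε)`.

Proof: the `2k`-th moment in `t` for large `k`. The `k`-th power of the inner sum is
`∑_j e(⟨Q, j⟩) ∑_{v ∈ [1,H]^k, power sums of v = j} ∏ a(x+v_i) (∏ (x+v_i))^{it}` with `Q(m) = P_x(x + m)`; Cauchy's
inequality removes the phase. An integer has `O(H)` representations as a product of `k` elements of
`(x, x + H]`, `H ≤ x`: by the divisor bound if `x ≤ (H+1)^k`, and by the uniqueness of the digits in base `x` of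
`∏ (x + v_i)` otherwise.
-/

set_option autoImplicit false

open MeasureTheory

namespace Pool.Agent.Results.MP_028aa5_nt.TypicalTwists

theorem result : ∀ (d : ℕ) (ε A : ℝ), 0 < ε → 0 < A → ∃ C M₀ : ℕ,
    ∀ a : ℕ → ℂ, (∀ n, ‖a n‖ ≤ 1) →
    ∀ (T₀ T : ℝ) (X M : ℕ), (X : ℝ) ^ C ≤ T → M₀ ≤ M →
    volume {t : ℝ | t ∈ Set.Icc T₀ (T₀ + T) ∧ ∃ H : ℕ, M ≤ H ∧ H ≤ X ∧
      ∃ P : ℕ → Polynomial ℝ, (∀ x, (P x).natDegree ≤ d) ∧ (X : ℝ) * (H : ℝ) ^ (1 / 2 + ε) <
        ∑ x ∈ Finset.Ico X (2 * X), ‖∑ n ∈ Finset.Ioc x (x + H), a n * (n : ℂ) ^ ((t : ℂ) * Complex.I) *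
          Complex.exp (2 * Real.pi * Complex.I * (((P x).eval (n : ℝ) : ℝ) : ℂ))‖} ≤
        ENNReal.ofReal (T * (M : ℝ) ^ (-A)) :=
  fun d ε A hε hA => Pool.Agent.T2H17.SI.main d ε A hε hA

end Pool.Agent.Results.MP_028aa5_nt.TypicalTwists
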